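import Pool.Agent.Helper14.LN.MLL
import Pool.Agent.Helper95.HV.Stmts

/-! Row MLZ: the localized Morawetz inequality, large charges. -/

set_option autoImplicit false

namespace Pool.Agent.Helper14.HV

open MeasureTheory Filter Pool.Agent.Helper95.PW Pool.Agent.Helper95.LN Pool.Agent.Helper95.HV

/-- the bound of the virial, integrated -/
theorem mlz_vir {n M : ℕ} {d z C0 C1 : ℝ} {X : Fin M → R3} {Z : Fin M → ℝ} {g : R3 → ℝ}
    {u : Wf n} (aed : ∀ᵐ x : Cf n, Dist X x)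
    (hV : ∀ x : Cf n, Dist X x → -(C1 * (C0 * (Vc X Z x + C0 * (z ^ 2 * M + z * ∑ k,
      near1 X d (x k))) + z * ∑ k, near2 X d (x k))) ≤ Vir X Z g x)
    (i1 : ∀ s, Integrable (fun x : Cf n =>
      (Vc X Z x + C0 * (z ^ 2 * M + z * ∑ k, near1 X d (x k))) * u s x ^ 2))
    (i2 : ∀ s, Integrable (fun x : Cf n => (∑ k, near2 X d (x k)) * u s x ^ 2))
    (i3 : ∀ s, Integrable (fun x : Cf n => Vir X Z g x * u s x ^ 2)) :
    -(C1 * (C0 * (∑ s, ∫ x, (Vc X Z x + C0 * (z ^ 2 * M + z * ∑ k, near1 X d (x k))) *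
      u s x ^ 2) + z * one (near2 X d) u)) ≤
      ∑ s, ∫ x, Vir X Z g x * u s x ^ 2 := by
  unfold one
  rw [Finset.mul_sum, Finset.mul_sum, ← Finset.sum_add_distrib, Finset.mul_sum,
    ← Finset.sum_neg_distrib]
  refine Finset.sum_le_sum fun s _ => ?_
  have j1 : Integrable (fun x : Cf n =>
      C0 * ((Vc X Z x + C0 * (z ^ 2 * M + z * ∑ k, near1 X d (x k))) * u s x ^ 2)) :=
    (i1 s).const_mul _
  have j2 : Integrable (fun x : Cf n => z * ((∑ k, near2 X d (x k)) * u s x ^ 2)) :=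
    (i2 s).const_mul _
  rw [← integral_const_mul, ← integral_const_mul, ← integral_add j1 j2, ← integral_const_mul,
    ← integral_neg]
  refine integral_mono_ae ((j1.add j2).const_mul _).neg (i3 s) ?_
  filter_upwards [aed] with x hx
  have h := mul_le_mul_of_nonneg_right (hV x hx) (sq_nonneg (u s x))
  refine le_trans (le_of_eq ?_) h
  ring

theorem mlz_near1_nonneg {M : ℕ} (X : Fin M → R3) (d : ℝ) (y : R3) : 0 ≤ near1 X d y := by
  unfold near1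
  refine Finset.sum_nonneg fun j _ => ?_
  split_ifs
  · unfold nr
    positivity
  · exact le_refl _

theorem MLZ (h1 : ST_MGS) (h2 : ST_MGX) (h3 : ST_AED) (h4 : ST_KID) (h5 : ST_VID) (h6 : ST_VIRZ)
    (h7 : ST_LOCY) (h8 : ST_PGB) (h9 : ST_HLOC) (h10 : ST_PAN) (h11 : ST_STB) (h12 : ST_INTM) :
    ST_MLZ := by
  intro d hd hd1
  obtain ⟨A, hA1, hA⟩ := h1 d hd
  obtain ⟨A', hA'1, hA'⟩ := h2 d hd
  obtain ⟨C1, hC1, hV⟩ := h6 d A hd hd1 hA1
  obtain ⟨C0, C2, hC0p, hC2, hLoc⟩ := h7 d hd hd1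
  obtain ⟨C3, hC3, hH⟩ := h9
  have hA0 : 0 ≤ A := by linarith
  have hA'0 : 0 ≤ A' := by linarith
  obtain ⟨C, hC⟩ : ∃ C, C = C2 + 2 * C1 * C2 + 2 * C1 * C3 * (1 + 2 / d ^ 2) + 2 * (A + A') :=
    ⟨_, rfl⟩
  have hC0 : 0 < C := by rw [hC]; positivity
  refine ⟨C, hC0, fun z E B0 n M X Z hD hM => ?_⟩
  have hX := hD.sep
  have hz1 := hD.z1
  have hz : 0 ≤ z := by linarith
  obtain ⟨P, hP⟩ : ∃ P, P = 7 * A ^ 2 * n * (|B0| + C3 * (|B0| + n * 2 / d ^ 2)) := ⟨_, rfl⟩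
  have hP0 : 0 ≤ P := by rw [hP]; positivity
  refine ⟨2 * z * Real.sqrt P + 1, by positivity, fun u hu hsq hkB s hs hsd => ?_⟩
  have hg := hA M X s hX hs hsd
  have hbi := hA' M X s hX hs hsd
  obtain ⟨g, hgg⟩ : ∃ g, g = mG X d s := ⟨_, rfl⟩
  rw [← hgg] at hg hbi
  have hw : Sm (fun s => Pg g (u s)) := (h11 n g u hg.sm hu).2.1
  have hkin0 : 0 ≤ kin u := by
    unfold kin Pool.Agent.Helper95.PW.sq
    exact Finset.sum_nonneg fun k _ => Finset.sum_nonneg fun i _ => Finset.sum_nonneg fun s _ =>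
      integral_nonneg fun x => sq_nonneg _
  have hsq0 : 0 ≤ Pool.Agent.Helper95.PW.sq u := by
    unfold Pool.Agent.Helper95.PW.sq
    exact Finset.sum_nonneg fun s _ => integral_nonneg fun x => sq_nonneg _
  have hn0 : (0 : ℝ) ≤ n := Nat.cast_nonneg n
  have hHL := hH n M X d u hd hX hu
  have hB := Pool.Agent.Helper14.LN.mll_bi hs hg.sm hbi hu
  have hKi := h4 n g u hg.sm hu
  have hHs := MLOC_hess hg.sm hg.hs hu
  have hR := Pool.Agent.Helper14.LN.mll_res h10 h12 X Z E hg.sm hu hw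
  obtain ⟨hvd1, hvd2⟩ := h5 n M X Z g u hg.sm hg.cs hu
  obtain ⟨hL1, hL2⟩ := hLoc z n M X Z hD
  obtain ⟨hY0, hYi, hYb⟩ := hL2 u hu hsq
  have hVx : ∀ x : Cf n, Dist X x → -(C1 * (C0 * (Vc X Z x + C0 * (z ^ 2 * M + z * ∑ k,
      near1 X d (x k))) + z * ∑ k, near2 X d (x k))) ≤ Vir X Z g x := by
    intro x hx
    have a1 := hV z n M X Z g x hD hg.sm hg.outd hg.d1 hg.hs hx
    have a2 := (hL1 x hx).2.2
    have a3 := mul_le_mul_of_nonneg_left a2 hC1.le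
    refine le_trans ?_ a1
    have e1 : C1 * (C0 * (Vc X Z x + C0 * (z ^ 2 * M + z * ∑ k, near1 X d (x k))) +
        z * ∑ k, near2 X d (x k)) =
        C1 * (C0 * (Vc X Z x + C0 * (z ^ 2 * M + z * ∑ k, near1 X d (x k)))) +
        C1 * (z * ∑ k, near2 X d (x k)) := by ring
    have e2 : C1 * (Loc d z X Z x + z * ∑ k, near2 X d (x k)) =
        C1 * Loc d z X Z x + C1 * (z * ∑ k, near2 X d (x k)) := by ring
    rw [e1, e2]
    linarith
  have hTV := mlz_vir (d := d) (z := z) (C0 := C0) (C1 := C1) (g := g) (h3 n M X) hVx hYi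
    hHL.1 hvd1
  have hcs := INL_cauchy hw (fun s => Pool.Agent.Helper31.PMMOR.hmML h12 X Z E (hu s).1 (hu s).2)
  have hpg := h8 n M X d A g u hd hX hA0 hg.sm hg.d1 hg.lp hu
  obtain ⟨R, hRd⟩ : ∃ R, R = ∑ s, ∫ x, Pg g (u s) x * (hmM X Z (u s) x - E * u s x) := ⟨_, rfl⟩
  have hRabs : R ≤ Real.sqrt P * Real.sqrt (resM X Z E u) := by
    rw [hRd]
    refine (le_abs_self _).trans (hcs.trans ?_)
    refine mul_le_mul_of_nonneg_right (Real.sqrt_le_sqrt ?_) (Real.sqrt_nonneg _)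
    refine hpg.trans ?_
    rw [hP]
    have b1 : kin u ≤ |B0| := hkB.trans (le_abs_self _)
    have b2 : one (near2 X d) u ≤ C3 * (|B0| + n * 2 / d ^ 2) := by
      refine hHL.2.trans (mul_le_mul_of_nonneg_left ?_ hC3.le)
      have : (n : ℝ) * Pool.Agent.Helper95.PW.sq u / d ^ 2 ≤ n * 2 / d ^ 2 := by gcongr
      linarith
    have b3 : 0 ≤ 7 * A ^ 2 * (n : ℝ) := by positivity
    exact mul_le_mul_of_nonneg_left (by linarith) b3
  have hmor : ∑ j, Z j * one (fun y => mor s (y - X j)) u ≤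
      z * ∑ j, one (fun y => mor s (y - X j)) u := by
    rw [Finset.mul_sum]
    exact Finset.sum_le_sum fun j _ => mul_le_mul_of_nonneg_right (hD.le j)
      (MLOC_one_nonneg (fun y => MLOC_mor_nonneg s _) u)
  have hN1 : 0 ≤ one (near1 X d) u := MLOC_one_nonneg (fun y => mlz_near1_nonneg X d y) u
  have hYC : YY C2 d z X Z u ≤ YY C d z X Z u := by
    unfold YY
    have a1 : 0 ≤ z ^ 2 * (M : ℝ) + z * one (near1 X d) u := by positivity
    have a2 : C2 ≤ C := by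
      rw [hC]
      have : 0 ≤ 2 * C1 * C2 + 2 * C1 * C3 * (1 + 2 / d ^ 2) + 2 * (A + A') := by positivity
      linarith
    have a3 := mul_le_mul_of_nonneg_right a2 a1
    linarith
  obtain ⟨Y2, hY2⟩ : ∃ Y2, Y2 = YY C2 d z X Z u := ⟨_, rfl⟩
  obtain ⟨Y, hY⟩ : ∃ Y, Y = YY C d z X Z u := ⟨_, rfl⟩
  rw [← hY2] at hY0 hYb hYC
  rw [← hY] at hYC
  rw [← hY]
  obtain ⟨VR, hVR⟩ : ∃ VR, VR = ∑ s, ∫ x, Vir X Z g x * u s x ^ 2 := ⟨_, rfl⟩
  obtain ⟨N, hN⟩ : ∃ N, N = one (near2 X d) u := ⟨_, rfl⟩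
  obtain ⟨L, hL⟩ : ∃ L, L = one (lap (lap g)) u := ⟨_, rfl⟩
  obtain ⟨q, hq⟩ : ∃ q, q = Pool.Agent.Helper95.PW.sq u := ⟨_, rfl⟩
  rw [← hN, ← hVR] at hTV
  rw [← hRd, hvd2, ← hVR, hKi, ← hL] at hR
  rw [← hL, ← hq] at hB
  have hHL2 := hHL.2
  rw [← hN, ← hq] at hHL2
  rw [← hq] at hsq hsq0
  obtain ⟨T, hT⟩ : ∃ T, T = C0 * (∑ s, ∫ x, (Vc X Z x + C0 * (z ^ 2 * M + z * ∑ k,
    near1 X d (x k))) * u s x ^ 2) := ⟨_, rfl⟩
  rw [← hT] at hTV hYb
  obtain ⟨W, hW⟩ : ∃ W, W = kin u + n := ⟨_, rfl⟩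
  have hW0 : 0 ≤ W := by rw [hW]; positivity
  have hqn : (n : ℝ) * q ≤ 2 * n := by nlinarith
  have hNW : N ≤ C3 * (1 + 2 / d ^ 2) * W := by
    refine hHL2.trans ?_
    have c0 : (n : ℝ) * q / d ^ 2 ≤ 2 * n / d ^ 2 :=
      div_le_div_of_nonneg_right hqn (by positivity)
    have c1 : kin u + n * q / d ^ 2 ≤ (1 + 2 / d ^ 2) * W := by
      have c2 : (1 + 2 / d ^ 2) * W = kin u + 2 * n / d ^ 2 + (n + 2 / d ^ 2 * kin u) := by
        rw [hW]
        ring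
      have c3 : 0 ≤ (n : ℝ) + 2 / d ^ 2 * kin u := by positivity
      rw [c2]
      linarith
    rw [mul_assoc]
    exact mul_le_mul_of_nonneg_left c1 hC3.le
  have hsum : ∑ j, one (fun y => mor s (y - X j)) u ≤ 2 * R + 2 * C1 * (C2 * Y2 + z * N) +
      2 * A * kin u + 2 * A' * n := by
    have c1 : A' * (n * q) ≤ A' * (2 * n) := mul_le_mul_of_nonneg_left hqn hA'0
    have c2 : C1 * (T + z * N) ≤ C1 * (C2 * Y2 + z * N) :=
      mul_le_mul_of_nonneg_left (by linarith) hC1.le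
    linarith
  have hz2 := mul_le_mul_of_nonneg_left hsum hz
  have hR2 := mul_le_mul_of_nonneg_left hRabs (mul_nonneg zero_le_two hz)
  have hres0 := Real.sqrt_nonneg (resM X Z E u)
  refine (hmor.trans hz2).trans ?_
  have f1 : z * (2 * C1 * C2 * Y2) ≤ z * (C * Y) := by
    refine mul_le_mul_of_nonneg_left ?_ hz
    have a2 : 2 * C1 * C2 ≤ C := by
      rw [hC]
      have : 0 ≤ C2 + 2 * C1 * C3 * (1 + 2 / d ^ 2) + 2 * (A + A') := by positivity
      linarith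
    calc 2 * C1 * C2 * Y2 ≤ C * Y2 := mul_le_mul_of_nonneg_right a2 hY0
      _ ≤ C * Y := mul_le_mul_of_nonneg_left hYC hC0.le
  have f2 : z * (2 * C1 * (z * N)) ≤ 2 * C1 * C3 * (1 + 2 / d ^ 2) * (z ^ 2 * W) := by
    have a1 : z ^ 2 * (2 * C1) * N ≤ z ^ 2 * (2 * C1) * (C3 * (1 + 2 / d ^ 2) * W) :=
      mul_le_mul_of_nonneg_left hNW (by positivity)
    have e1 : z * (2 * C1 * (z * N)) = z ^ 2 * (2 * C1) * N := by ring
    have e2 : 2 * C1 * C3 * (1 + 2 / d ^ 2) * (z ^ 2 * W) =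
        z ^ 2 * (2 * C1) * (C3 * (1 + 2 / d ^ 2) * W) := by ring
    rw [e1, e2]
    exact a1
  have f3 : z * (2 * A * kin u + 2 * A' * n) ≤ 2 * (A + A') * (z ^ 2 * W) := by
    have a1 : 2 * A * kin u + 2 * A' * n ≤ 2 * (A + A') * W := by
      have c2 : 2 * (A + A') * W = (2 * A * kin u + 2 * A' * n) +
          (2 * A * n + 2 * A' * kin u) := by
        rw [hW]
        ring
      have c3 : 0 ≤ 2 * A * (n : ℝ) + 2 * A' * kin u := by positivity
      rw [c2]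
      linarith
    have a2 : z ≤ z ^ 2 := by nlinarith
    have a3 : 0 ≤ 2 * (A + A') * W := by positivity
    calc z * (2 * A * kin u + 2 * A' * n) ≤ z * (2 * (A + A') * W) :=
          mul_le_mul_of_nonneg_left a1 hz
      _ ≤ z ^ 2 * (2 * (A + A') * W) := mul_le_mul_of_nonneg_right a2 a3
      _ = 2 * (A + A') * (z ^ 2 * W) := by ring
  have f4 : (2 * C1 * C3 * (1 + 2 / d ^ 2) + 2 * (A + A')) * (z ^ 2 * W) ≤ C * (z ^ 2 * W) := by
    refine mul_le_mul_of_nonneg_right ?_ (by positivity)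
    rw [hC]
    have : 0 ≤ C2 + 2 * C1 * C2 := by positivity
    linarith
  have e5 : z * (2 * R + 2 * C1 * (C2 * Y2 + z * N) + 2 * A * kin u + 2 * A' * n) =
      2 * z * R + z * (2 * C1 * C2 * Y2) + z * (2 * C1 * (z * N)) +
        z * (2 * A * kin u + 2 * A' * n) := by ring
  have e6 : (2 * z * Real.sqrt P + 1) * Real.sqrt (resM X Z E u) =
      2 * z * (Real.sqrt P * Real.sqrt (resM X Z E u)) + Real.sqrt (resM X Z E u) := by ring
  have e7 : C * z * (z * kin u + z * n + Y) = z * (C * Y) + C * (z ^ 2 * W) := by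
    rw [hW]
    ring
  rw [e5, e6, e7]
  linarith

end Pool.Agent.Helper14.HV
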